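import Pool.Agent.H81.HD.Dens

/-!
# Times at which two lines are near
-/

set_option autoImplicit false

namespace Pool.HD

open Finset Real Pool.XF Pool.LU
open Pool.Agent.H49.Ent Pool.Agent.H32.Dense Pool.STK Pool.KA Pool.KSAT Pool.K2S Pool.PC

theorem card_near {N : ℕ} (F : Finset (Fin N)) {M : ℝ} (hM : 0 ≤ M)
    (h : ∀ a ∈ F, ∀ b ∈ F, |((a : ℕ) : ℝ) - ((b : ℕ) : ℝ)| ≤ M) : (F.card : ℝ) ≤ M + 1 := by
  rcases F.eq_empty_or_nonempty with h0 | h0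
  · rw [h0]
    simp only [Finset.card_empty, Nat.cast_zero]
    linarith
  · obtain ⟨a, ha, hmin⟩ := Finset.exists_min_image F (fun i => (i : ℕ)) h0
    have h1 : F.card ≤ (Finset.Icc (a : ℕ) ((a : ℕ) + ⌊M⌋₊)).card := by
      refine Finset.card_le_card_of_injOn (fun i => (i : ℕ)) (fun i hi => ?_)
        (fun i _ j _ hij => Fin.ext hij)
      have h2 := h i hi a ha
      have h3 := hmin i hi
      rw [Finset.mem_coe, Finset.mem_Icc]
      refine ⟨h3, ?_⟩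
      have h4 : (((i : ℕ) - (a : ℕ) : ℕ) : ℝ) ≤ M := by
        rw [Nat.cast_sub h3]
        exact (le_abs_self _).trans h2
      have h5 := Nat.le_floor h4
      show (i : ℕ) ≤ (a : ℕ) + ⌊M⌋₊
      omega
    rw [Nat.card_Icc] at h1
    have h2 : (F.card : ℝ) ≤ ((⌊M⌋₊ + 1 : ℕ) : ℝ) := by
      have : F.card ≤ ⌊M⌋₊ + 1 := by omega
      exact_mod_cast this
    push_cast at h2
    linarith [Nat.floor_le hM]

/-- Times at which the difference of two lines is small. -/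
theorem times_near (s : ℕ) (δ0 δ1 : ℝ) (F : Finset (Fin (2 ^ s)))
    (hF : ∀ i ∈ F, |δ0 + ((i : ℕ) : ℝ) / 2 ^ s * δ1| ≤ 1 / 2 ^ s) (r : ℕ) (hr : r < s)
    (hn : ¬ (|δ0| ≤ 1 / 2 ^ (r + 1) ∧ |δ1| ≤ 1 / 2 ^ (r + 1))) :
    (F.card : ℝ) ≤ 18 * 2 ^ r := by
  have h2r : (1 : ℝ) ≤ 2 ^ r := one_le_pow₀ (by norm_num)
  have hs : (0 : ℝ) < 2 ^ s := by positivity
  have hr1 : (1 : ℝ) / 2 ^ (r + 1) = 1 / 2 ^ r / 2 := by
    rw [pow_succ]
    field_simp
  have hr0 : (0 : ℝ) < 1 / 2 ^ (r + 1) := by positivity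
  by_cases h1 : 1 / 2 ^ (r + 2) ≤ |δ1|
  · have h0 : (0 : ℝ) < |δ1| := lt_of_lt_of_le (by positivity) h1
    refine (card_near F (M := 2 * 2 ^ (r + 2)) (by positivity) fun i hi j hj => ?_).trans ?_
    · have e : (((i : ℕ) : ℝ) - ((j : ℕ) : ℝ)) * δ1 =
          2 ^ s * ((δ0 + ((i : ℕ) : ℝ) / 2 ^ s * δ1) - (δ0 + ((j : ℕ) : ℝ) / 2 ^ s * δ1)) := by
        field_simp
        ring
      have h2 : |((i : ℕ) : ℝ) - ((j : ℕ) : ℝ)| * |δ1| ≤ 2 := by
        rw [← abs_mul, e, abs_mul, abs_of_pos hs]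
        have h3 := (abs_sub (δ0 + ((i : ℕ) : ℝ) / 2 ^ s * δ1)
          (δ0 + ((j : ℕ) : ℝ) / 2 ^ s * δ1)).trans (add_le_add (hF i hi) (hF j hj))
        have h4 := mul_le_mul_of_nonneg_left h3 hs.le
        refine h4.trans (le_of_eq ?_)
        field_simp
        norm_num
      have h3 : |((i : ℕ) : ℝ) - ((j : ℕ) : ℝ)| * (1 / 2 ^ (r + 2)) ≤ 2 :=
        (mul_le_mul_of_nonneg_left h1 (abs_nonneg _)).trans h2
      rw [mul_one_div, div_le_iff₀ (by positivity)] at h3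
      exact h3
    · rw [pow_add]
      linarith
  · push Not at h1
    have h3 : (1 : ℝ) / 2 ^ (r + 2) = 1 / 2 ^ (r + 1) / 2 := by
      rw [pow_succ (2 : ℝ) (r + 1)]
      field_simp
    have h2 : 1 / 2 ^ (r + 1) < |δ0| := by
      by_contra hcon
      push Not at hcon
      exact hn ⟨hcon, by linarith⟩
    rcases F.eq_empty_or_nonempty with h0 | ⟨i, hi⟩
    · rw [h0]
      simp only [Finset.card_empty, Nat.cast_zero]
      positivity
    · have h4 := hF i hi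
      obtain ⟨g1, g2⟩ := fin_frac s i
      have h5 : |((i : ℕ) : ℝ) / 2 ^ s * δ1| ≤ 1 * (1 / 2 ^ (r + 2)) :=
        abs_mul_le (by rw [abs_of_nonneg g1]; exact g2) h1.le
      have h6 : |δ0| ≤ |δ0 + ((i : ℕ) : ℝ) / 2 ^ s * δ1| + |((i : ℕ) : ℝ) / 2 ^ s * δ1| := by
        have := abs_sub (δ0 + ((i : ℕ) : ℝ) / 2 ^ s * δ1) (((i : ℕ) : ℝ) / 2 ^ s * δ1)
        rwa [add_sub_cancel_right] at this
      have h7 : (1 : ℝ) / 2 ^ (r + 2) < 1 / 2 ^ s := by linarith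
      have h8 : s < r + 2 := by
        by_contra hcon
        push Not at hcon
        exact absurd h7 (not_lt.mpr (one_div_le_one_div_of_le (by positivity)
          (pow_le_pow_right₀ (by norm_num) hcon)))
      have h9 : F.card ≤ 2 ^ s := by
        have := Finset.card_le_univ F
        rwa [Fintype.card_fin] at this
      have h10 : (F.card : ℝ) ≤ 2 ^ s := by exact_mod_cast h9
      have h11 : (2 : ℝ) ^ s ≤ 2 ^ (r + 1) := pow_le_pow_right₀ (by norm_num) (by omega)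
      rw [pow_succ] at h11
      linarith

open Classical in
/-- The number of the times, by scales. -/
theorem times_sum (s : ℕ) (δ0 δ1 : ℝ) (h0 : |δ0| ≤ 1) (h1 : |δ1| ≤ 1) (F : Finset (Fin (2 ^ s)))
    (hF : ∀ i ∈ F, |δ0 + ((i : ℕ) : ℝ) / 2 ^ s * δ1| ≤ 1 / 2 ^ s) :
    (F.card : ℝ) ≤ ∑ r ∈ Finset.range (s + 1),
      18 * 2 ^ r * (if |δ0| ≤ 1 / 2 ^ r ∧ |δ1| ≤ 1 / 2 ^ r then 1 else 0) := by
  obtain ⟨P, hP⟩ : ∃ P : ℕ → Prop, P = fun r => |δ0| ≤ 1 / 2 ^ r ∧ |δ1| ≤ 1 / 2 ^ r := ⟨_, rfl⟩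
  have hP0 : P 0 := by
    rw [hP]
    simpa using ⟨h0, h1⟩
  obtain ⟨r, hr⟩ : ∃ r, r = Nat.findGreatest P s := ⟨_, rfl⟩
  have hrs : r ≤ s := by rw [hr]; exact Nat.findGreatest_le s
  have hPr : P r := by rw [hr]; exact Nat.findGreatest_spec (Nat.zero_le s) hP0
  have h2 : (F.card : ℝ) ≤ 18 * 2 ^ r * (if P r then 1 else 0) := by
    rw [if_pos hPr, mul_one]
    rcases lt_or_eq_of_le hrs with h3 | h3
    · refine times_near s δ0 δ1 F hF r h3 ?_
      have h4 : ¬ P (r + 1) := Nat.findGreatest_is_greatest (n := s) (by rw [← hr]; omega) (by omega)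
      rw [hP] at h4
      exact h4
    · have h9 : F.card ≤ 2 ^ s := by
        have := Finset.card_le_univ F
        rwa [Fintype.card_fin] at this
      have h10 : (F.card : ℝ) ≤ 2 ^ s := by exact_mod_cast h9
      rw [h3]
      have : (0 : ℝ) < 2 ^ s := by positivity
      linarith
  refine h2.trans ?_
  have h5 : ∀ r, (if P r then (1 : ℝ) else 0) =
      (if |δ0| ≤ 1 / 2 ^ r ∧ |δ1| ≤ 1 / 2 ^ r then 1 else 0) := fun r => by simp only [hP]
  rw [h5 r]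
  refine Finset.single_le_sum (f := fun r : ℕ => 18 * (2 : ℝ) ^ r *
    (if |δ0| ≤ 1 / 2 ^ r ∧ |δ1| ≤ 1 / 2 ^ r then 1 else 0)) (fun i _ => ?_)
    (Finset.mem_range.mpr (by omega))
  split_ifs <;> positivity

end Pool.HD
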