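import Pool.Agent.H81.LU.Flr
import Pool.Agent.H81.XF.Ph1

/-!
# Laws of bounded density

`q ≤ K r`: the pointwise information with respect to `r` and the entropy with respect to `q`.
-/

set_option autoImplicit false

namespace Pool.HD

open Finset Real Pool.XF Pool.LU
open Pool.Agent.H49.Ent Pool.Agent.H32.Dense Pool.STK Pool.KA Pool.KSAT Pool.K2S Pool.PC

variable {Ω S T : Type} [Fintype Ω] {q r : Ω → ℝ}

/-- The pointwise information. -/
noncomputable def info (r : Ω → ℝ) (X : Ω → S) (W : Ω → T) (ω : Ω) : ℝ :=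
  -Real.log (law r (fun ω => (X ω, W ω)) (X ω, W ω) / law r W (W ω))

theorem law_dens {K : ℝ} (h : ∀ ω, q ω ≤ K * r ω) (X : Ω → S) (s : S) :
    law q X s ≤ K * law r X s := by
  classical
  unfold law
  rw [Finset.mul_sum]
  refine Finset.sum_le_sum fun ω _ => ?_
  split_ifs
  · exact h ω
  · simp

/-- Cross entropy of one variable. -/
theorem H_le_cross (hq : IsLaw q) (hr : IsLaw r) {K : ℝ} (hK : 0 < K)
    (h : ∀ ω, q ω ≤ K * r ω) (W : Ω → T) :
    H q W ≤ Ex q (fun ω => -Real.log (law r W (W ω))) := by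
  classical
  have hpos : ∀ ω, 0 < q ω → 0 < r ω := fun ω hω => by
    have := hω.trans_le (h ω)
    exact (pos_iff_pos_of_mul_pos this).mp hK
  have key := CH_le_cross hq.nonneg hq.sum_one W (fun _ : Ω => ()) (fun _ x => law r W x)
    (fun ω hω => law_pos hr.nonneg W (hpos ω hω)) (fun _ x => law_nonneg hr.nonneg W x)
    (fun ω _ F => by
      unfold law
      rw [Finset.sum_comm]
      refine le_trans (Finset.sum_le_sum fun ω' _ => ?_) hr.sum_one.le
      rw [Finset.sum_ite_eq F (W ω') (fun _ => r ω')]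
      split_ifs
      exacts [le_rfl, hr.nonneg ω'])
  have e : CH q W (fun _ : Ω => ()) = H q W := by
    unfold CH
    rw [H_const hq.sum_one, sub_zero]
    exact H_congr hq.nonneg (fun ω ω' _ _ hh => Prod.ext hh rfl)
      (fun ω ω' _ _ hh => (Prod.ext_iff.mp hh).1)
  rw [e] at key
  exact key

/-- **The entropy and the information.** -/
theorem dens_info (hq : IsLaw q) (hr : IsLaw r) {K : ℝ} (hK : 0 < K)
    (h : ∀ ω, q ω ≤ K * r ω) (X : Ω → S) (W : Ω → T) :
    Ex q (info r X W) - Real.log K ≤ CH q X W := by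
  have hpos : ∀ ω, 0 < q ω → 0 < r ω := fun ω hω => by
    have := hω.trans_le (h ω)
    exact (pos_iff_pos_of_mul_pos this).mp hK
  have h1 := H_le_cross hq hr hK h W
  have h2 : Ex q (fun ω => -Real.log (law r (fun ω => (X ω, W ω)) (X ω, W ω))) - Real.log K ≤
      H q (fun ω => (X ω, W ω)) := by
    have e1 : H q (fun ω => (X ω, W ω)) =
        Ex q (fun ω => -Real.log (law q (fun ω => (X ω, W ω)) (X ω, W ω))) := by
      unfold H Ex
      rw [← Finset.sum_neg_distrib]
      exact Finset.sum_congr rfl fun ω _ => by ring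
    have e2 : Real.log K = Ex q (fun _ => Real.log K) := (Ex_const hq.sum_one _).symm
    rw [e1, e2, ← Ex_sub]
    refine Ex_mono hq.nonneg fun ω hω => ?_
    have a1 : 0 < law q (fun ω => (X ω, W ω)) (X ω, W ω) := law_pos hq.nonneg _ hω
    have a2 : 0 < law r (fun ω => (X ω, W ω)) (X ω, W ω) := law_pos hr.nonneg _ (hpos ω hω)
    have a3 := law_dens h (fun ω => (X ω, W ω)) (X ω, W ω)
    have a4 := Real.log_le_log a1 a3
    rw [Real.log_mul hK.ne' a2.ne'] at a4
    linarith
  have e3 : Ex q (info r X W) =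
      Ex q (fun ω => -Real.log (law r (fun ω => (X ω, W ω)) (X ω, W ω))) -
        Ex q (fun ω => -Real.log (law r W (W ω))) := by
    rw [← Ex_sub]
    unfold Ex
    refine Finset.sum_congr rfl fun ω _ => ?_
    rcases (hq.nonneg ω).eq_or_lt with h0 | h0
    · rw [← h0, zero_mul, zero_mul]
    · have a2 : 0 < law r (fun ω => (X ω, W ω)) (X ω, W ω) := law_pos hr.nonneg _ (hpos ω h0)
      have a3 : 0 < law r W (W ω) := law_pos hr.nonneg _ (hpos ω h0)
      unfold info
      rw [Real.log_div a2.ne' a3.ne']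
      ring
  have e4 : CH q X W = H q (fun ω => (X ω, W ω)) - H q W := rfl
  rw [e3, e4]
  linarith

/-- The entropy of a mixture. -/
theorem H_mix_le (hq : IsLaw q) (hr : IsLaw r) {a b : ℝ} (ha : 0 < a) (hb : 0 < b)
    (hab : a + b = 1) (X : Ω → S) :
    H (fun ω => a * q ω + b * r ω) X ≤ a * H q X + b * H r X + Real.log 2 := by
  have h1 : ∀ {t : Ω → ℝ} {c : ℝ}, IsLaw t → 0 < c →
      (∀ s, c * law t X s ≤ law (fun ω => a * q ω + b * r ω) X s) →
      -∑ ω, c * t ω * Real.log (law (fun ω => a * q ω + b * r ω) X (X ω)) ≤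
        c * H t X - c * Real.log c := by
    intro t c ht hc h
    have e : c * H t X - c * Real.log c = -∑ ω, c * t ω * (Real.log c + Real.log (law t X (X ω))) := by
      have e1 : ∑ ω, c * t ω * (Real.log c + Real.log (law t X (X ω))) =
          c * Real.log c * (∑ ω, t ω) + c * ∑ ω, t ω * Real.log (law t X (X ω)) := by
        rw [Finset.mul_sum, Finset.mul_sum, ← Finset.sum_add_distrib]
        exact Finset.sum_congr rfl fun ω _ => by ring
      rw [e1, ht.sum_one]
      unfold H
      ring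
    rw [e, neg_le_neg_iff]
    refine Finset.sum_le_sum fun ω _ => ?_
    rcases (ht.nonneg ω).eq_or_lt with h0 | h0
    · rw [← h0]
      simp
    · refine mul_le_mul_of_nonneg_left ?_ (mul_nonneg hc.le h0.le)
      have a1 : 0 < law t X (X ω) := law_pos ht.nonneg _ h0
      rw [← Real.log_mul hc.ne' a1.ne']
      exact Real.log_le_log (mul_pos hc a1) (h _)
  have g1 := h1 hq ha fun s => by
    rw [law_add]
    linarith [mul_nonneg hb.le (law_nonneg hr.nonneg X s)]
  have g2 := h1 hr hb fun s => by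
    rw [law_add]
    linarith [mul_nonneg ha.le (law_nonneg hq.nonneg X s)]
  have e : H (fun ω => a * q ω + b * r ω) X =
      -∑ ω, a * q ω * Real.log (law (fun ω => a * q ω + b * r ω) X (X ω)) +
      -∑ ω, b * r ω * Real.log (law (fun ω => a * q ω + b * r ω) X (X ω)) := by
    unfold H
    rw [← neg_add, ← Finset.sum_add_distrib]
    congr 1
    exact Finset.sum_congr rfl fun ω _ => by ring
  have g3 : -(a * Real.log a) - b * Real.log b ≤ Real.log 2 := by
    have := Real.binEntropy_le_log_two (p := a)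
    unfold Real.binEntropy at this
    rw [Real.log_inv, Real.log_inv, show 1 - a = b by linarith] at this
    linarith
  rw [e]
  linarith

theorem CH_mix_le (hq : IsLaw q) (hr : IsLaw r) {a b : ℝ} (ha : 0 < a) (hb : 0 < b)
    (hab : a + b = 1) (X : Ω → S) (W : Ω → T) :
    CH (fun ω => a * q ω + b * r ω) X W ≤ a * CH q X W + b * CH r X W + Real.log 2 := by
  have h1 := H_mix_le hq hr ha hb hab (fun ω => (X ω, W ω))
  have h2 := H_concave hq.nonneg hr.nonneg ha.le hb.le hab W
  unfold CH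
  linarith

/-- **Full variables stay full** under a law of bounded density. -/
theorem dens_lower (hq : IsLaw q) (hr : IsLaw r) {K R : ℝ} (hK : 1 < K)
    (h : ∀ ω, q ω ≤ K * r ω) (X : Ω → S) (W : Ω → T)
    (hub : ∀ q' : Ω → ℝ, IsLaw q' → (∀ ω, 0 < q' ω → 0 < r ω) → CH q' X W ≤ R) :
    R - K * (R - CH r X W) - K * Real.log 2 ≤ CH q X W := by
  have hK0 : 0 < K := by linarith
  obtain ⟨b, hb⟩ : ∃ b, b = 1 - 1 / K := ⟨_, rfl⟩
  have hb0 : 0 < b := by
    rw [hb, sub_pos, div_lt_one hK0]
    exact hK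
  obtain ⟨q', hq'⟩ : ∃ q' : Ω → ℝ, q' = fun ω => (r ω - q ω / K) / b := ⟨_, rfl⟩
  have h1 : ∀ ω, 0 ≤ r ω - q ω / K := fun ω => by
    rw [sub_nonneg, div_le_iff₀ hK0]
    linarith [h ω]
  have hl : IsLaw q' := by
    refine ⟨fun ω => ?_, ?_⟩
    · rw [hq']
      exact div_nonneg (h1 ω) hb0.le
    · rw [hq', ← Finset.sum_div, Finset.sum_sub_distrib, hr.sum_one, ← Finset.sum_div, hq.sum_one,
        ← hb]
      exact div_self hb0.ne'
  have hs : ∀ ω, 0 < q' ω → 0 < r ω := fun ω hω => by
    rw [hq'] at hω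
    have := (div_pos_iff_of_pos_right hb0).mp hω
    have h2 : 0 ≤ q ω / K := div_nonneg (hq.nonneg ω) hK0.le
    linarith
  have hm : (fun ω => 1 / K * q ω + b * q' ω) = r := by
    funext ω
    rw [hq']
    field_simp
    ring
  have key := CH_mix_le hq hl (show 0 < 1 / K by positivity) hb0 (by rw [hb]; ring) X W
  rw [hm] at key
  have h3 := hub q' hl hs
  have h4 := mul_le_mul_of_nonneg_left key hK0.le
  have h5 : K * (1 / K * CH q X W + b * CH q' X W + Real.log 2) =
      CH q X W + (K - 1) * CH q' X W + K * Real.log 2 := by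
    rw [hb]
    field_simp
  rw [h5] at h4
  have h6 := mul_le_mul_of_nonneg_left h3 (show 0 ≤ K - 1 by linarith)
  nlinarith

/-- Jensen for the logarithm. -/
theorem Ex_log_le (hq : IsLaw q) {f : Ω → ℝ} (hf : ∀ ω, 0 < q ω → 0 < f ω) {c : ℝ} (hc : 0 < c)
    (h : Ex q f ≤ c) : Ex q (fun ω => Real.log (f ω)) ≤ Real.log c := by
  have h1 : Ex q (fun ω => Real.log (f ω)) ≤ Ex q (fun ω => (1 / c) * f ω + (Real.log c - 1)) := by
    refine Ex_mono hq.nonneg fun ω hω => ?_
    have h2 := Real.log_le_sub_one_of_pos (div_pos (hf ω hω) hc)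
    rw [Real.log_div (hf ω hω).ne' hc.ne'] at h2
    have e : (1 / c) * f ω = f ω / c := by ring
    rw [e]
    linarith
  rw [Ex_add, Ex_smul, Ex_const hq.sum_one] at h1
  have h3 : 1 / c * Ex q f ≤ 1 := by
    rw [one_div, inv_mul_le_iff₀ hc]
    linarith
  linarith

end Pool.HD
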