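import Pool.Agent.H81.HD.Cnt

/-!
# Kaufman's theorem with a label, for laws of bounded density
-/

set_option autoImplicit false

namespace Pool.HD

open Finset Real Pool.XF Pool.LU
open Pool.Agent.H49.Ent Pool.Agent.H32.Dense Pool.STK Pool.KA Pool.KSAT Pool.K2S Pool.PC

theorem Ex_dens {Ω : Type} [Fintype Ω] {q r : Ω → ℝ} {K : ℝ} (h : ∀ ω, q ω ≤ K * r ω) {f : Ω → ℝ}
    (hf : ∀ ω, 0 ≤ f ω) : Ex q f ≤ K * Ex r f := by
  unfold Ex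
  rw [Finset.mul_sum]
  refine Finset.sum_le_sum fun ω _ => ?_
  have := mul_le_mul_of_nonneg_right (h ω) (hf ω)
  linarith

section

variable {Ω ζ : Type} [Fintype Ω]

open Classical in
/-- The mass of the near lines with the same side information. -/
noncomputable def nb (p : Ω → ℝ) (Z : Ω → ζ) (Y : Ω → Fin 2 → Fin 1 → ℝ) (r : ℕ) (ω : Ω) : ℝ :=
  ∑ ω', if Z ω' = Z ω ∧ (|Y ω 0 0 - Y ω' 0 0| ≤ 1 / 2 ^ r ∧ |Y ω 1 0 - Y ω' 1 0| ≤ 1 / 2 ^ r)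
    then p ω' else 0

theorem nb_nonneg {p : Ω → ℝ} (hp : ∀ ω, 0 ≤ p ω) (Z : Ω → ζ) (Y : Ω → Fin 2 → Fin 1 → ℝ)
    (r : ℕ) (ω : Ω) : 0 ≤ nb p Z Y r ω := by
  classical
  unfold nb
  exact Finset.sum_nonneg fun ω' _ => by split_ifs; exacts [hp ω', le_rfl]

theorem le_nb {p : Ω → ℝ} (hp : ∀ ω, 0 ≤ p ω) (Z : Ω → ζ) (Y : Ω → Fin 2 → Fin 1 → ℝ)
    (r : ℕ) (ω : Ω) : p ω ≤ nb p Z Y r ω := by
  classical
  unfold nb
  have h := Finset.single_le_sum (f := fun ω' => if Z ω' = Z ω ∧ (|Y ω 0 0 - Y ω' 0 0| ≤ 1 / 2 ^ r ∧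
    |Y ω 1 0 - Y ω' 1 0| ≤ 1 / 2 ^ r) then p ω' else 0)
    (fun ω' _ => by split_ifs; exacts [hp ω', le_rfl]) (Finset.mem_univ ω)
  simpa using h

/-- The mass of the lines which meet a line, all times together. -/
theorem sum_law {p : Ω → ℝ} (hp : IsLaw p) (Z : Ω → ζ) {Y : Ω → Fin 2 → Fin 1 → ℝ}
    (hY : ∀ ω ω' a, |Y ω a 0 - Y ω' a 0| ≤ 1) (s : ℕ) (ω : Ω) :
    ∑ i : Fin (2 ^ s), law (uni s p) (fun u => (uposk s Y u, (u.2, Z u.1)))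
      (uposk s Y (ω, i), (i, Z ω)) ≤
    ∑ r ∈ Finset.range (s + 1), 18 * 2 ^ r * nb p Z Y r ω / 2 ^ s := by
  classical
  have e1 : ∀ i : Fin (2 ^ s), law (uni s p) (fun u => (uposk s Y u, (u.2, Z u.1)))
      (uposk s Y (ω, i), (i, Z ω)) = ∑ ω', if Z ω' = Z ω ∧ uposk s Y (ω', i) = uposk s Y (ω, i)
        then p ω' / 2 ^ s else 0 := by
    intro i
    unfold law uni
    rw [Fintype.sum_prod_type]
    refine Finset.sum_congr rfl fun ω' _ => ?_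
    rw [Finset.sum_eq_single i]
    · dsimp only
      by_cases h : Z ω' = Z ω ∧ uposk s Y (ω', i) = uposk s Y (ω, i)
      · rw [if_pos h, if_pos (by simp only [Prod.mk.injEq]; tauto)]
      · rw [if_neg h, if_neg (by simp only [Prod.mk.injEq]; tauto)]
    · intro j _ hj
      rw [if_neg]
      simp only [Prod.mk.injEq]
      tauto
    · intro h
      exact absurd (Finset.mem_univ _) h
  rw [Finset.sum_congr rfl fun i _ => e1 i, Finset.sum_comm]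
  have e2 : ∀ ω', ∑ i : Fin (2 ^ s), (if Z ω' = Z ω ∧ uposk s Y (ω', i) = uposk s Y (ω, i)
      then p ω' / 2 ^ s else 0) ≤ ∑ r ∈ Finset.range (s + 1), 18 * 2 ^ r *
        (if Z ω' = Z ω ∧ (|Y ω 0 0 - Y ω' 0 0| ≤ 1 / 2 ^ r ∧ |Y ω 1 0 - Y ω' 1 0| ≤ 1 / 2 ^ r)
          then p ω' else 0) / 2 ^ s := by
    intro ω'
    by_cases hZ : Z ω' = Z ω
    · have h1 : ∀ i : Fin (2 ^ s), (if Z ω' = Z ω ∧ uposk s Y (ω', i) = uposk s Y (ω, i)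
          then p ω' / 2 ^ s else 0) = (if uposk s Y (ω', i) = uposk s Y (ω, i) then 1 else 0) *
            (p ω' / 2 ^ s) := by
        intro i
        by_cases h2 : uposk s Y (ω', i) = uposk s Y (ω, i) <;> simp [hZ, h2]
      rw [Finset.sum_congr rfl fun i _ => h1 i, ← Finset.sum_mul, Finset.sum_boole]
      have h3 := times_sum s (Y ω 0 0 - Y ω' 0 0) (Y ω 1 0 - Y ω' 1 0) (hY ω ω' 0) (hY ω ω' 1)
        (Finset.univ.filter fun i : Fin (2 ^ s) => uposk s Y (ω', i) = uposk s Y (ω, i))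
        (fun i hi => by
          have h4 := congrFun (Finset.mem_filter.mp hi).2 0
          have h5 := floor_same h4
          rw [abs_sub_comm] at h5
          refine le_trans (le_of_eq ?_) h5
          congr 1
          ring)
      have h4 : 0 ≤ p ω' / 2 ^ s := div_nonneg (hp.nonneg ω') (by positivity)
      refine (mul_le_mul_of_nonneg_right h3 h4).trans (le_of_eq ?_)
      rw [Finset.sum_mul]
      refine Finset.sum_congr rfl fun r _ => ?_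
      by_cases h5 : |Y ω 0 0 - Y ω' 0 0| ≤ 1 / 2 ^ r ∧ |Y ω 1 0 - Y ω' 1 0| ≤ 1 / 2 ^ r
      · rw [if_pos h5, if_pos ⟨hZ, h5⟩]
        ring
      · rw [if_neg h5, if_neg (fun h => h5 h.2)]
        ring
    · have h1 : ∀ i : Fin (2 ^ s), (if Z ω' = Z ω ∧ uposk s Y (ω', i) = uposk s Y (ω, i)
          then p ω' / 2 ^ s else 0) = 0 := fun i => if_neg (fun h => hZ h.1)
      rw [Finset.sum_congr rfl fun i _ => h1 i, Finset.sum_const_zero]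
      refine Finset.sum_nonneg fun r _ => ?_
      have : (0 : ℝ) ≤ (if Z ω' = Z ω ∧ (|Y ω 0 0 - Y ω' 0 0| ≤ 1 / 2 ^ r ∧
          |Y ω 1 0 - Y ω' 1 0| ≤ 1 / 2 ^ r) then p ω' else 0) := by
        split_ifs
        exacts [hp.nonneg ω', le_rfl]
      positivity
  refine (Finset.sum_le_sum fun ω' _ => e2 ω').trans (le_of_eq ?_)
  rw [Finset.sum_comm]
  refine Finset.sum_congr rfl fun r _ => ?_
  unfold nb
  rw [Finset.mul_sum, Finset.sum_div]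

theorem floor_abs {x y : ℝ} {r : ℕ} (h : |x - y| ≤ 1 / 2 ^ r) :
    |⌊(2 : ℝ) ^ r * y⌋ - ⌊(2 : ℝ) ^ r * x⌋| ≤ 1 := by
  have hr : (0 : ℝ) < 2 ^ r := by positivity
  have h1 : |2 ^ r * y - 2 ^ r * x| ≤ 1 := by
    rw [← mul_sub, abs_mul, abs_of_pos hr, abs_sub_comm]
    have := mul_le_mul_of_nonneg_left h hr.le
    refine this.trans (le_of_eq ?_)
    field_simp
  rw [abs_le] at h1 ⊢
  have f1 := Int.floor_le ((2 : ℝ) ^ r * y)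
  have f2 := Int.lt_floor_add_one ((2 : ℝ) ^ r * y)
  have f3 := Int.floor_le ((2 : ℝ) ^ r * x)
  have f4 := Int.lt_floor_add_one ((2 : ℝ) ^ r * x)
  constructor
  · have h2 : ((⌊(2 : ℝ) ^ r * x⌋ : ℤ) : ℝ) < ((⌊(2 : ℝ) ^ r * y⌋ + 2 : ℤ) : ℝ) := by
      push_cast
      linarith [h1.1]
    have h3 : ⌊(2 : ℝ) ^ r * x⌋ < ⌊(2 : ℝ) ^ r * y⌋ + 2 := by exact_mod_cast h2
    omega
  · have h2 : ((⌊(2 : ℝ) ^ r * y⌋ : ℤ) : ℝ) < ((⌊(2 : ℝ) ^ r * x⌋ + 2 : ℤ) : ℝ) := by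
      push_cast
      linarith [h1.2]
    have h3 : ⌊(2 : ℝ) ^ r * y⌋ < ⌊(2 : ℝ) ^ r * x⌋ + 2 := by exact_mod_cast h2
    omega

open Classical in
/-- The reference measure of the cells. -/
noncomputable def prf (p : Ω → ℝ) (Z : Ω → ζ) (Y : Ω → Fin 2 → Fin 1 → ℝ) (s : ℕ) (z : ζ)
    (c : ℕ × (ℤ × ℤ)) : ℝ :=
  if c.1 ≤ s then (∑ ω, if Z ω = z ∧ (|⌊(2 : ℝ) ^ c.1 * Y ω 0 0⌋ - c.2.1| ≤ 1 ∧
    |⌊(2 : ℝ) ^ c.1 * Y ω 1 0⌋ - c.2.2| ≤ 1) then p ω else 0) / (9 * (s + 1) * law p Z z) else 0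

theorem prf_sum {p : Ω → ℝ} (hp : IsLaw p) (Z : Ω → ζ) (Y : Ω → Fin 2 → Fin 1 → ℝ) (s : ℕ)
    (z : ζ) (hz : 0 < law p Z z) (F : Finset (ℕ × (ℤ × ℤ))) : ∑ c ∈ F, prf p Z Y s z c ≤ 1 := by
  classical
  have hd : (0 : ℝ) < 9 * (s + 1) * law p Z z := by positivity
  have e1 : ∀ c, prf p Z Y s z c = (∑ ω, if Z ω = z ∧ (c.1 ≤ s ∧
      (|⌊(2 : ℝ) ^ c.1 * Y ω 0 0⌋ - c.2.1| ≤ 1 ∧ |⌊(2 : ℝ) ^ c.1 * Y ω 1 0⌋ - c.2.2| ≤ 1))
        then p ω else 0) / (9 * (s + 1) * law p Z z) := by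
    intro c
    unfold prf
    by_cases h : c.1 ≤ s
    · rw [if_pos h]
      congr 1
      refine Finset.sum_congr rfl fun ω _ => if_congr ?_ rfl rfl
      tauto
    · rw [if_neg h, eq_comm, div_eq_zero_iff]
      left
      refine Finset.sum_eq_zero fun ω _ => if_neg ?_
      tauto
  rw [Finset.sum_congr rfl fun c _ => e1 c, ← Finset.sum_div, div_le_one hd, Finset.sum_comm]
  have e2 : ∀ ω, ∑ c ∈ F, (if Z ω = z ∧ (c.1 ≤ s ∧ (|⌊(2 : ℝ) ^ c.1 * Y ω 0 0⌋ - c.2.1| ≤ 1 ∧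
      |⌊(2 : ℝ) ^ c.1 * Y ω 1 0⌋ - c.2.2| ≤ 1)) then p ω else 0) ≤
      9 * (s + 1) * (if Z ω = z then p ω else 0) := by
    intro ω
    by_cases hZ : Z ω = z
    · have h1 : ∀ c : ℕ × (ℤ × ℤ), (if Z ω = z ∧ (c.1 ≤ s ∧
          (|⌊(2 : ℝ) ^ c.1 * Y ω 0 0⌋ - c.2.1| ≤ 1 ∧ |⌊(2 : ℝ) ^ c.1 * Y ω 1 0⌋ - c.2.2| ≤ 1))
            then p ω else 0) = (if (c.1 ≤ s ∧ (|⌊(2 : ℝ) ^ c.1 * Y ω 0 0⌋ - c.2.1| ≤ 1 ∧
              |⌊(2 : ℝ) ^ c.1 * Y ω 1 0⌋ - c.2.2| ≤ 1)) then 1 else 0) * p ω := by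
        intro c
        by_cases h : (c.1 ≤ s ∧ (|⌊(2 : ℝ) ^ c.1 * Y ω 0 0⌋ - c.2.1| ≤ 1 ∧
          |⌊(2 : ℝ) ^ c.1 * Y ω 1 0⌋ - c.2.2| ≤ 1))
        · rw [if_pos ⟨hZ, h⟩, if_pos h, one_mul]
        · rw [if_neg (fun hh => h hh.2), if_neg h, zero_mul]
      rw [Finset.sum_congr rfl fun c _ => h1 c, ← Finset.sum_mul, Finset.sum_boole, if_pos hZ]
      refine mul_le_mul_of_nonneg_right ?_ (hp.nonneg ω)
      have h2 : (F.filter fun c => (c.1 ≤ s ∧ (|⌊(2 : ℝ) ^ c.1 * Y ω 0 0⌋ - c.2.1| ≤ 1 ∧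
          |⌊(2 : ℝ) ^ c.1 * Y ω 1 0⌋ - c.2.2| ≤ 1))).card ≤
          (Finset.range (s + 1) ×ˢ (Finset.Icc (-1 : ℤ) 1 ×ˢ Finset.Icc (-1 : ℤ) 1)).card := by
        refine Finset.card_le_card_of_injOn (fun c => (c.1, (⌊(2 : ℝ) ^ c.1 * Y ω 0 0⌋ - c.2.1,
          ⌊(2 : ℝ) ^ c.1 * Y ω 1 0⌋ - c.2.2))) (fun c hc => ?_) (fun c _ c' _ hcc => ?_)
        · rw [Finset.mem_coe, Finset.mem_filter] at hc
          obtain ⟨-, g1, g2, g3⟩ := hc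
          rw [abs_le] at g2 g3
          rw [Finset.mem_coe, Finset.mem_product, Finset.mem_product, Finset.mem_Icc,
            Finset.mem_Icc, Finset.mem_range]
          exact ⟨by show c.1 < s + 1; omega, g2, g3⟩
        · simp only [Prod.mk.injEq] at hcc
          obtain ⟨g1, g2, g3⟩ := hcc
          rw [g1] at g2 g3
          refine Prod.ext g1 (Prod.ext ?_ ?_) <;> linarith
      rw [Finset.card_product, Finset.card_product, Finset.card_range, Int.card_Icc] at h2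
      have h3 : ((s + 1) * ((1 + 1 - -1 : ℤ).toNat * (1 + 1 - -1 : ℤ).toNat) : ℕ) = 9 * (s + 1) := by
        have : (1 + 1 - -1 : ℤ).toNat = 3 := rfl
        rw [this]
        ring
      rw [h3] at h2
      have h4 : ((F.filter fun c => (c.1 ≤ s ∧ (|⌊(2 : ℝ) ^ c.1 * Y ω 0 0⌋ - c.2.1| ≤ 1 ∧
          |⌊(2 : ℝ) ^ c.1 * Y ω 1 0⌋ - c.2.2| ≤ 1))).card : ℝ) ≤ ((9 * (s + 1) : ℕ) : ℝ) := by
        exact_mod_cast h2
      push_cast at h4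
      exact h4
    · rw [if_neg hZ, mul_zero]
      refine le_of_eq (Finset.sum_eq_zero fun c _ => if_neg fun h => hZ h.1)
  refine (Finset.sum_le_sum fun ω _ => e2 ω).trans (le_of_eq ?_)
  rw [← Finset.mul_sum]
  rfl

end

end Pool.HD
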