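import Pool.Agent.H81.HD.Kauf

/-!
# Kaufman's theorem with a label, for laws of bounded density: the theorem
-/

set_option autoImplicit false

namespace Pool.HD

open Finset Real Pool.XF Pool.LU
open Pool.Agent.H49.Ent Pool.Agent.H32.Dense Pool.STK Pool.KA Pool.KSAT Pool.K2S Pool.PC

variable {Ω ζ : Type} [Fintype Ω]

theorem exists_kap (p : Ω → ℝ) (Z : Ω → ζ) (Y : Ω → Fin 2 → Fin 1 → ℝ) (s : ℕ) :
    ∃ κ : Ω → ℕ, (∀ ω, κ ω ≤ s) ∧ ∀ ω r, r ≤ s →
      2 ^ r * nb p Z Y r ω ≤ 2 ^ κ ω * nb p Z Y (κ ω) ω := by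
  have h : ∀ ω, ∃ κ, κ ≤ s ∧ ∀ r, r ≤ s → 2 ^ r * nb p Z Y r ω ≤ 2 ^ κ * nb p Z Y κ ω := by
    intro ω
    obtain ⟨κ, h1, h2⟩ := Finset.exists_max_image (Finset.range (s + 1))
      (fun r => 2 ^ r * nb p Z Y r ω) ⟨0, Finset.mem_range.mpr (by omega)⟩
    exact ⟨κ, by have := Finset.mem_range.mp h1; omega,
      fun r hr => h2 r (Finset.mem_range.mpr (by omega))⟩
  choose κ h1 h2 using h
  exact ⟨κ, h1, h2⟩

/-- The label. -/
noncomputable def lb0 (κ : Ω → ℕ) (Y : Ω → Fin 2 → Fin 1 → ℝ) (ω : Ω) : ℕ × (ℤ × ℤ) :=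
  (κ ω, (⌊(2 : ℝ) ^ κ ω * Y ω 0 0⌋, ⌊(2 : ℝ) ^ κ ω * Y ω 1 0⌋))

theorem lb0_labk {κ : Ω → ℕ} {Y : Ω → Fin 2 → Fin 1 → ℝ} {ω ω' : Ω}
    (h : lb0 κ Y ω = lb0 κ Y ω') :
    labk (fun ω _ => κ ω) (fun _ _ _ => 1) Y ω = labk (fun ω _ => κ ω) (fun _ _ _ => 1) Y ω' := by
  unfold lb0 at h
  simp only [Prod.mk.injEq] at h
  obtain ⟨h1, h2, h3⟩ := h
  have e : ∀ (ω : Ω) (a : Fin 2), flk (fun _ : Fin 1 => κ ω) (mco (fun _ _ => 1) (Y ω a)) =
      fun _ => ⌊(2 : ℝ) ^ κ ω * Y ω a 0⌋ := by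
    intro ω a
    funext i
    unfold flk mco
    simp
  unfold labk
  rw [e, e, e, e, h2, h3]
  dsimp only
  rw [h1]

open Classical in
/-- **Kaufman's theorem with a label**, for laws of bounded density. -/
theorem kaufq {p : Ω → ℝ} (hp : IsLaw p) (Z : Ω → ζ) {Y : Ω → Fin 2 → Fin 1 → ℝ}
    (hY : ∀ ω ω' a, |Y ω a 0 - Y ω' a 0| ≤ 1) (s : ℕ) {q : Ω × Fin (2 ^ s) → ℝ} (hq : IsLaw q)
    {K : ℝ} (hK : 1 ≤ K) (h : ∀ u, q u ≤ K * uni s p u) :
    ∃ κ : Ω → ℕ, (∀ ω, κ ω ≤ s) ∧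
      CH q (fun u => lb0 κ Y u.1) (fun u => Z u.1) +
        Ex q (fun u => (s : ℝ) - κ u.1) * Real.log 2 ≤
      CH q (uposk s Y) (fun u => (u.2, Z u.1)) + 2 * Real.log K +
        (Real.log 18 + Real.log 9 + 2 * Real.log (s + 1)) := by
  have hK0 : 0 < K := by linarith
  have hr := uni_law hp s
  have h2s : (0 : ℝ) < 2 ^ s := by positivity
  obtain ⟨κ, hκ, hmax⟩ := exists_kap p Z Y s
  refine ⟨κ, hκ, ?_⟩
  have hpos : ∀ u, 0 < q u → 0 < p u.1 := fun u hu => by
    have := hu.trans_le (h u)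
    exact uni_pos s ((pos_iff_pos_of_mul_pos this).mp hK0)
  obtain ⟨L, hL⟩ : ∃ L : Ω → ℝ, L = fun ω => law p Z (Z ω) := ⟨_, rfl⟩
  obtain ⟨M, hM⟩ : ∃ M : Ω → ℝ, M = fun ω => 2 ^ κ ω * nb p Z Y (κ ω) ω := ⟨_, rfl⟩
  obtain ⟨m, hm⟩ : ∃ m : Ω → ℝ, m = fun ω => M ω / (2 ^ s * L ω) := ⟨_, rfl⟩
  have Lpos : ∀ ω, 0 < p ω → 0 < L ω := fun ω hω => by
    rw [hL]
    exact law_pos hp.nonneg Z hω
  have npos : ∀ ω, 0 < p ω → 0 < nb p Z Y (κ ω) ω := fun ω hω =>
    hω.trans_le (le_nb hp.nonneg Z Y _ ω)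
  have Mpos : ∀ ω, 0 < p ω → 0 < M ω := fun ω hω => by
    rw [hM]
    exact mul_pos (by positivity) (npos ω hω)
  have mpos : ∀ ω, 0 < p ω → 0 < m ω := fun ω hω => by
    rw [hm]
    exact div_pos (Mpos ω hω) (mul_pos h2s (Lpos ω hω))
  have M0 : ∀ ω, 0 ≤ M ω := fun ω => by
    rw [hM]
    exact mul_nonneg (by positivity) (nb_nonneg hp.nonneg Z Y _ ω)
  have L0 : ∀ ω, 0 ≤ L ω := fun ω => by
    rw [hL]
    exact law_nonneg hp.nonneg Z _
  have m0 : ∀ ω, 0 ≤ m ω := fun ω => by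
    rw [hm]
    exact div_nonneg (M0 ω) (mul_nonneg h2s.le (L0 ω))
  -- the ratio
  obtain ⟨V, hV⟩ : ∃ V : Ω × Fin (2 ^ s) → ℝ, V = fun u =>
    law (uni s p) (fun u => (uposk s Y u, (u.2, Z u.1))) (uposk s Y u, (u.2, Z u.1)) := ⟨_, rfl⟩
  have V0 : ∀ u, 0 ≤ V u := fun u => by
    rw [hV]
    exact law_nonneg hr.nonneg _ _
  have Vpos : ∀ u, 0 < q u → 0 < V u := fun u hu => by
    rw [hV]
    have := hu.trans_le (h u)
    exact law_pos hr.nonneg _ ((pos_iff_pos_of_mul_pos this).mp hK0)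
  have einfo : ∀ u, info (uni s p) (uposk s Y) (fun u => (u.2, Z u.1)) u =
      -Real.log (V u / (L u.1 / 2 ^ s)) := by
    intro u
    unfold info
    rw [hV, hL]
    dsimp only
    rw [law_uni s Z u.2 (Z u.1)]
  obtain ⟨f, hf⟩ : ∃ f : Ω × Fin (2 ^ s) → ℝ, f = fun u => V u / (L u.1 / 2 ^ s) / m u.1 :=
    ⟨_, rfl⟩
  have f0 : ∀ u, 0 ≤ f u := fun u => by
    rw [hf]
    exact div_nonneg (div_nonneg (V0 u) (div_nonneg (L0 _) h2s.le)) (m0 _)
  have fpos : ∀ u, 0 < q u → 0 < f u := fun u hu => by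
    rw [hf]
    exact div_pos (div_pos (Vpos u hu) (div_pos (Lpos _ (hpos u hu)) h2s)) (mpos _ (hpos u hu))
  have E1 : Ex (uni s p) f ≤ 18 * (s + 1) := by
    unfold Ex
    rw [Fintype.sum_prod_type]
    have e1 : ∀ ω, ∑ i : Fin (2 ^ s), uni s p (ω, i) * f (ω, i) ≤ p ω * (18 * (s + 1)) := by
      intro ω
      rcases (hp.nonneg ω).eq_or_lt with h0 | h0
      · have : ∀ i : Fin (2 ^ s), uni s p (ω, i) * f (ω, i) = 0 := fun i => by
          unfold uni
          dsimp only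
          rw [← h0]
          simp
        rw [Finset.sum_congr rfl fun i _ => this i, ← h0]
        simp
      · have hLω := Lpos ω h0
        have hMω := Mpos ω h0
        have e2 : ∀ i : Fin (2 ^ s), uni s p (ω, i) * f (ω, i) =
            p ω * (2 ^ s / M ω) * V (ω, i) := by
          intro i
          rw [hf, hm]
          unfold uni
          dsimp only
          field_simp
        rw [Finset.sum_congr rfl fun i _ => e2 i, ← Finset.mul_sum]
        have e3 : ∑ i : Fin (2 ^ s), V (ω, i) ≤ 18 * (s + 1) * M ω / 2 ^ s := by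
          have e4 := sum_law hp Z hY s ω
          rw [hV]
          refine e4.trans ?_
          have e5 : ∀ r ∈ Finset.range (s + 1), 18 * 2 ^ r * nb p Z Y r ω / 2 ^ s ≤
              18 * M ω / 2 ^ s := by
            intro r hr'
            have := hmax ω r (by have := Finset.mem_range.mp hr'; omega)
            rw [hM]
            refine div_le_div_of_nonneg_right ?_ h2s.le
            linarith
          refine (Finset.sum_le_sum e5).trans (le_of_eq ?_)
          rw [Finset.sum_const, Finset.card_range, nsmul_eq_mul]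
          push_cast
          ring
        have e6 := mul_le_mul_of_nonneg_left e3 (show 0 ≤ p ω * (2 ^ s / M ω) by positivity)
        refine e6.trans (le_of_eq ?_)
        field_simp
    refine (Finset.sum_le_sum fun ω _ => e1 ω).trans (le_of_eq ?_)
    rw [← Finset.sum_mul, hp.sum_one, one_mul]
  have hc : (0 : ℝ) < K * (18 * (s + 1)) := by positivity
  have E2 := Ex_log_le hq fpos hc ((Ex_dens h f0).trans (mul_le_mul_of_nonneg_left E1 hK0.le))
  have E3 : Ex q (fun u => Real.log (f u)) =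
      -Ex q (info (uni s p) (uposk s Y) (fun u => (u.2, Z u.1))) -
        Ex q (fun u => Real.log (m u.1)) := by
    have e : Ex q (fun u => Real.log (f u)) = Ex q (fun u => (-1) *
        info (uni s p) (uposk s Y) (fun u => (u.2, Z u.1)) u - Real.log (m u.1)) := by
      unfold Ex
      refine Finset.sum_congr rfl fun u _ => ?_
      rcases (hq.nonneg u).eq_or_lt with h0 | h0
      · rw [← h0, zero_mul, zero_mul]
      · dsimp only
        rw [einfo u, hf]
        dsimp only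
        rw [Real.log_div (div_pos (Vpos u h0) (div_pos (Lpos _ (hpos u h0)) h2s)).ne'
          (mpos _ (hpos u h0)).ne']
        ring
    rw [e, Ex_sub, Ex_smul]
    ring
  have E4 := dens_info hq hr hK0 h (uposk s Y) (fun u => (u.2, Z u.1))
  -- the label
  have G := CH_le_cross hq.nonneg hq.sum_one (fun u => lb0 κ Y u.1) (fun u => Z u.1)
    (prf p Z Y s) (fun u hu => ?_) (fun z c => ?_)
    (fun u hu F => prf_sum hp Z Y s (Z u.1) (law_pos hp.nonneg Z (hpos u hu)) F)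
  · have prf_ge : ∀ ω, 0 < p ω → nb p Z Y (κ ω) ω / (9 * (s + 1) * L ω) ≤
        prf p Z Y s (Z ω) (lb0 κ Y ω) := by
      intro ω hω
      unfold prf lb0
      rw [if_pos (hκ ω), hL]
      refine div_le_div_of_nonneg_right ?_ (mul_nonneg (by positivity)
        (law_nonneg hp.nonneg Z (Z ω)))
      unfold nb
      refine Finset.sum_le_sum fun ω' _ => ?_
      by_cases hn : Z ω' = Z ω ∧ (|Y ω 0 0 - Y ω' 0 0| ≤ 1 / 2 ^ κ ω ∧
          |Y ω 1 0 - Y ω' 1 0| ≤ 1 / 2 ^ κ ω)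
      · rw [if_pos hn, if_pos ⟨hn.1, floor_abs hn.2.1, floor_abs hn.2.2⟩]
      · rw [if_neg hn]
        split_ifs
        exacts [hp.nonneg ω', le_rfl]
    have G2 : Ex q (fun u => -Real.log (prf p Z Y s (Z u.1) (lb0 κ Y u.1))) ≤
        Ex q (fun u => (-1) * Real.log (m u.1) - ((s : ℝ) - κ u.1) * Real.log 2 +
          Real.log (9 * (s + 1))) := by
      refine Ex_mono hq.nonneg fun u hu => ?_
      have hω := hpos u hu
      have h1 := prf_ge u.1 hω
      have hn := npos u.1 hω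
      have hl := Lpos u.1 hω
      have h2 := Real.log_le_log (div_pos hn (mul_pos (by positivity) hl)) h1
      rw [Real.log_div hn.ne' (mul_pos (by positivity) hl).ne',
        Real.log_mul (by positivity) hl.ne'] at h2
      have h3 : Real.log (m u.1) = κ u.1 * Real.log 2 + Real.log (nb p Z Y (κ u.1) u.1) -
          s * Real.log 2 - Real.log (L u.1) := by
        rw [hm, hM]
        dsimp only
        rw [Real.log_div (mul_pos (by positivity) hn).ne' (mul_pos h2s hl).ne',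
          Real.log_mul (by positivity) hn.ne', Real.log_mul h2s.ne' hl.ne', Real.log_pow,
          Real.log_pow]
        ring
      rw [h3]
      linarith
    rw [Ex_add, Ex_sub, Ex_smul, Ex_const hq.sum_one] at G2
    have G3 : Ex q (fun u => ((s : ℝ) - κ u.1) * Real.log 2) =
        Ex q (fun u => (s : ℝ) - κ u.1) * Real.log 2 := by
      unfold Ex
      rw [Finset.sum_mul]
      exact Finset.sum_congr rfl fun u _ => by ring
    rw [G3] at G2
    have l1 : Real.log (K * (18 * (s + 1))) = Real.log K + (Real.log 18 + Real.log (s + 1)) := by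
      rw [Real.log_mul hK0.ne' (by positivity), Real.log_mul (by norm_num) (by positivity)]
    have l2 : Real.log (9 * ((s : ℝ) + 1)) = Real.log 9 + Real.log (s + 1) :=
      Real.log_mul (by norm_num) (by positivity)
    rw [l1] at E2
    rw [l2] at G2
    linarith
  · have hω := hpos u hu
    have h1 : 0 < nb p Z Y (κ u.1) u.1 / (9 * (s + 1) * L u.1) :=
      div_pos (npos _ hω) (mul_pos (by positivity) (Lpos _ hω))
    refine h1.trans_le ?_
    unfold prf lb0
    rw [if_pos (hκ _), hL]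
    refine div_le_div_of_nonneg_right ?_ (mul_nonneg (by positivity)
      (law_nonneg hp.nonneg Z (Z u.1)))
    unfold nb
    refine Finset.sum_le_sum fun ω' _ => ?_
    by_cases hn : Z ω' = Z u.1 ∧ (|Y u.1 0 0 - Y ω' 0 0| ≤ 1 / 2 ^ κ u.1 ∧
        |Y u.1 1 0 - Y ω' 1 0| ≤ 1 / 2 ^ κ u.1)
    · rw [if_pos hn, if_pos ⟨hn.1, floor_abs hn.2.1, floor_abs hn.2.2⟩]
    · rw [if_neg hn]
      split_ifs
      exacts [hp.nonneg ω', le_rfl]
  · unfold prf
    split_ifs
    · refine div_nonneg (Finset.sum_nonneg fun ω _ => ?_) (mul_nonneg (by positivity)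
        (law_nonneg hp.nonneg Z z))
      split_ifs
      exacts [hp.nonneg ω, le_rfl]
    · exact le_rfl

end Pool.HD
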