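import Pool.Agent.H81.HD.Kauf2

/-!
# Rows under laws of bounded density
-/

set_option autoImplicit false

namespace Pool.HD

open Finset Real Pool.XF Pool.LU
open Pool.Agent.H49.Ent Pool.Agent.H32.Dense Pool.STK Pool.KA Pool.KSAT Pool.K2S Pool.PC

/-- **Rows and information**, with the information which is left. -/
theorem payK {Ω S T U V : Type} [Fintype Ω] {p : Ω → ℝ} (hp : ∀ ω, 0 ≤ p ω) (n : ℕ) (L : Ω → S)
    (c : ℕ → Ω → T) (τ : ℕ → Ω → U) (Y : ℕ → Ω → V) {e' : ℝ}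
    (h1 : ∀ i < n, CH p (fun ω => (Y i ω, (τ i ω, c i ω))) (c (i + 1)) ≤ e') :
    ∑ i ∈ Finset.range n, CH p (Y i) (fun ω => (τ i ω, c i ω)) + CH p L (c n) ≤
      CH p L (c 0) + n * e' +
        ∑ i ∈ Finset.range n, CH p (Y i) (fun ω => (L ω, (τ i ω, c i ω))) := by
  induction n with
  | zero => simp
  | succ n ih =>
    rw [Finset.sum_range_succ, Finset.sum_range_succ]
    have i1 := ih (fun i hi => h1 i (hi.trans (Nat.lt_succ_self n)))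
    have i2 : CH p L (fun ω => (τ n ω, c n ω)) ≤ CH p L (c n) :=
      CH_mono_cond hp fun ω ω' _ _ h => (Prod.ext_iff.mp h).2
    have i3 := CH_chain hp L (Y n) (fun ω => (τ n ω, c n ω))
    have i4 := CH_chain hp (Y n) L (fun ω => (τ n ω, c n ω))
    have i5 : CH p (fun ω => (L ω, Y n ω)) (fun ω => (τ n ω, c n ω)) =
        CH p (fun ω => (Y n ω, L ω)) (fun ω => (τ n ω, c n ω)) := by
      refine CH_congr hp ?_ ?_ (fun _ _ _ _ h => h) (fun _ _ _ _ h => h) <;>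
      · intro ω ω' _ _ h
        simp only [Prod.mk.injEq] at h ⊢
        tauto
    have i7 : CH p L (c (n + 1)) ≤ CH p L (fun ω => (Y n ω, (τ n ω, c n ω))) + e' := by
      refine (CH_le_add hp L (fun ω => (Y n ω, (τ n ω, c n ω))) (c (n + 1))).trans ?_
      have j1 := h1 n (Nat.lt_succ_self n)
      have j2 : CH p L (fun ω => ((Y n ω, (τ n ω, c n ω)), c (n + 1) ω)) ≤
          CH p L (fun ω => (Y n ω, (τ n ω, c n ω))) :=
        CH_mono_cond hp fun ω ω' _ _ h => (Prod.ext_iff.mp h).1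
      linarith
    push_cast
    linarith

section

variable {Ω : Type} {k : ℕ} {s : ℕ} {Y : Ω → Fin 2 → Fin k → ℝ} {T : Ω → ℕ}

theorem tm_lo {v v' t t' : ℕ} (h1 : v ≤ v') (h2 : v' ≤ s)
    (h : t / 2 ^ (s - v') = t' / 2 ^ (s - v')) : t / 2 ^ (s - v) = t' / 2 ^ (s - v) := by
  have e : ∀ t : ℕ, t / 2 ^ (s - v) = (t / 2 ^ (s - v')) / 2 ^ (v' - v) := by
    intro t
    rw [Nat.div_div_eq_div_mul, ← pow_add]
    congr 2
    omega
  rw [e, e t', h]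

/-- From the position at a shorter window to the longer one. -/
theorem pv_up {v v' : ℕ} (h1 : v ≤ v') (h2 : v' ≤ s) {ω ω' : Ω}
    (hY : ∀ j, |Y ω 1 j - Y ω' 1 j| ≤ 1)
    (ht : T ω / 2 ^ (s - v') = T ω' / 2 ^ (s - v'))
    (hx : posv s Y T v' ω = posv s Y T v' ω') (j : Fin k) :
    |((posv s Y T v ω j - posv s Y T v ω' j : ℤ) : ℝ)| ≤ 2 + 1 := by
  have ht2 := tm_lo h1 h2 ht
  have h3 := congrFun hx j
  unfold posv at h3 ⊢
  rw [← ht] at h3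
  rw [← ht2]
  refine floor_close ?_
  have h4 := floor_same h3
  obtain ⟨g1, g2⟩ := tdiv h1 h2 (T ω)
  obtain ⟨a, ha⟩ : ∃ a : ℝ, a = ((T ω / 2 ^ (s - v') : ℕ) : ℝ) / 2 ^ v' := ⟨_, rfl⟩
  obtain ⟨b, hb⟩ : ∃ b : ℝ, b = ((T ω / 2 ^ (s - v) : ℕ) : ℝ) / 2 ^ v := ⟨_, rfl⟩
  rw [← ha, ← hb] at g1 g2
  rw [← ha] at h4
  rw [← hb]
  have e : Y ω 0 j + b * Y ω 1 j - (Y ω' 0 j + b * Y ω' 1 j) =
      (Y ω 0 j + a * Y ω 1 j - (Y ω' 0 j + a * Y ω' 1 j)) -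
        (a - b) * (Y ω 1 j - Y ω' 1 j) := by ring
  rw [e]
  refine (abs_sub _ _).trans ?_
  have h5 : |(a - b) * (Y ω 1 j - Y ω' 1 j)| ≤ 1 / 2 ^ v * 1 :=
    abs_mul_le (by rw [abs_of_nonneg g1]; exact g2) (hY j)
  have h6 : (1 : ℝ) / 2 ^ v' ≤ 1 / 2 ^ v :=
    one_div_le_one_div_of_le (by positivity) (pow_le_pow_right₀ (by norm_num) h1)
  have e2 : (2 : ℝ) / 2 ^ v = 1 / 2 ^ v + 1 / 2 ^ v * 1 := by ring
  rw [e2]
  linarith

/-- From the position at a window to a shorter one. -/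
theorem pv_dn {v v' : ℕ} (h1 : v ≤ v') (h2 : v' ≤ s) {ω ω' : Ω}
    (hY : ∀ j, |Y ω 1 j - Y ω' 1 j| ≤ 1)
    (ht : T ω / 2 ^ (s - v') = T ω' / 2 ^ (s - v'))
    (hx : posv s Y T v ω = posv s Y T v ω') (j : Fin k) :
    |((posv s Y T v' ω j - posv s Y T v' ω' j : ℤ) : ℝ)| ≤ 2 * 2 ^ (v' - v) + 1 := by
  have ht2 := tm_lo h1 h2 ht
  have h3 := congrFun hx j
  unfold posv at h3 ⊢
  rw [← ht2] at h3
  rw [← ht]
  refine floor_close ?_
  have h4 := floor_same h3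
  obtain ⟨g1, g2⟩ := tdiv h1 h2 (T ω)
  obtain ⟨a, ha⟩ : ∃ a : ℝ, a = ((T ω / 2 ^ (s - v') : ℕ) : ℝ) / 2 ^ v' := ⟨_, rfl⟩
  obtain ⟨b, hb⟩ : ∃ b : ℝ, b = ((T ω / 2 ^ (s - v) : ℕ) : ℝ) / 2 ^ v := ⟨_, rfl⟩
  rw [← ha, ← hb] at g1 g2
  rw [← ha]
  rw [← hb] at h4
  have e : Y ω 0 j + a * Y ω 1 j - (Y ω' 0 j + a * Y ω' 1 j) =
      (Y ω 0 j + b * Y ω 1 j - (Y ω' 0 j + b * Y ω' 1 j)) +
        (a - b) * (Y ω 1 j - Y ω' 1 j) := by ring
  rw [e]
  refine (abs_add_le _ _).trans ?_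
  have h5 : |(a - b) * (Y ω 1 j - Y ω' 1 j)| ≤ 1 / 2 ^ v * 1 :=
    abs_mul_le (by rw [abs_of_nonneg g1]; exact g2) (hY j)
  have e2 : 2 * (2 : ℝ) ^ (v' - v) / 2 ^ v' = 1 / 2 ^ v + 1 / 2 ^ v * 1 := by
    have : (2 : ℝ) ^ v' = 2 ^ v * 2 ^ (v' - v) := by
      rw [← pow_add]
      congr 1
      omega
    rw [this]
    field_simp
    norm_num
  rw [e2]
  linarith

end

section

variable {Ω ζ : Type} [Fintype Ω] {k : ℕ}

/-- The upper bound of a row. -/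
theorem row_le {q : Ω → ℝ} (hq : IsLaw q) (Z : Ω → ζ) {s : ℕ} {Y : Ω → Fin 2 → Fin k → ℝ}
    {T : Ω → ℕ} (hY : ∀ ω ω' j, |Y ω 1 j - Y ω' 1 j| ≤ 1) {v v' : ℕ} (h1 : v ≤ v')
    (h2 : v' ≤ s) :
    CH q (posv s Y T v') (fun ω => (T ω / 2 ^ (s - v'), (posv s Y T v ω, Z ω))) ≤
      k * (((v' : ℝ) - v) * Real.log 2 + Real.log 7) := by
  have hP : (1 : ℝ) ≤ 2 ^ (v' - v) := one_le_pow₀ (by norm_num)
  have := CH_bI hq (posv s Y T v') (fun ω => (T ω / 2 ^ (s - v'), (posv s Y T v ω, Z ω)))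
    (2 * 2 ^ (v' - v) + 1) (by positivity) fun ω ω' _ _ hh j => by
      simp only [Prod.mk.injEq] at hh
      exact pv_dn h1 h2 (hY ω ω') hh.1 hh.2.1 j
  rw [Fintype.card_fin] at this
  refine this.trans (mul_le_mul_of_nonneg_left ?_ (Nat.cast_nonneg k))
  have h3 : 2 * (2 * (2 : ℝ) ^ (v' - v) + 1) + 1 ≤ 2 ^ (v' - v) * 7 := by linarith
  refine (Real.log_le_log (by positivity) h3).trans (le_of_eq ?_)
  rw [Real.log_mul (by positivity) (by norm_num), Real.log_pow, Nat.cast_sub h1]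

/-- **Rows under a law of bounded density.** -/
theorem rows_dens {p q : Ω → ℝ} (hp : IsLaw p) (hq : IsLaw q) {K : ℝ} (hK : 1 < K)
    (hqp : ∀ ω, q ω ≤ K * p ω) (Z : Ω → ζ) {s : ℕ} {Y : Ω → Fin 2 → Fin k → ℝ}
    {T : Ω → ℕ} (hY : ∀ ω ω' j, |Y ω 1 j - Y ω' 1 j| ≤ 1) {v : ℕ → ℕ}
    (hv : ∀ i, v i ≤ v (i + 1)) {n : ℕ} (hvn : v n ≤ s) :
    k * (s * Real.log 2) - K * (k * (s * Real.log 2) - ∑ i ∈ Finset.range n,
      CH p (posv s Y T (v (i + 1)))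
        (fun ω => (T ω / 2 ^ (s - v (i + 1)), (posv s Y T (v i) ω, Z ω)))) -
      n * (K * (k * Real.log 7 + Real.log 2)) ≤
    ∑ i ∈ Finset.range n, CH q (posv s Y T (v (i + 1)))
      (fun ω => (T ω / 2 ^ (s - v (i + 1)), (posv s Y T (v i) ω, Z ω))) := by
  have hk : (0 : ℝ) ≤ k := Nat.cast_nonneg k
  have l2 : 0 ≤ Real.log 2 := Real.log_nonneg (by norm_num)
  have l7 : 0 ≤ Real.log 7 := Real.log_nonneg (by norm_num)
  have vmono : ∀ i j, i ≤ j → v i ≤ v j := fun i j h => monotone_nat_of_le_succ hv h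
  obtain ⟨A, hA⟩ : ∃ A : ℕ → ℝ, A = fun i => CH p (posv s Y T (v (i + 1)))
    (fun ω => (T ω / 2 ^ (s - v (i + 1)), (posv s Y T (v i) ω, Z ω))) := ⟨_, rfl⟩
  obtain ⟨R, hR⟩ : ∃ R : ℕ → ℝ, R = fun i =>
    k * (((v (i + 1) : ℝ) - v i) * Real.log 2 + Real.log 7) := ⟨_, rfl⟩
  have h1 : ∀ i ∈ Finset.range n, R i - K * (R i - A i) - K * Real.log 2 ≤
      CH q (posv s Y T (v (i + 1)))
        (fun ω => (T ω / 2 ^ (s - v (i + 1)), (posv s Y T (v i) ω, Z ω))) := by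
    intro i hi
    have hi' := Finset.mem_range.mp hi
    rw [hA, hR]
    exact dens_lower hq hp hK hqp _ _ fun q' hq' _ =>
      row_le hq' Z hY (hv i) ((vmono _ _ hi').trans hvn)
  have h2 := Finset.sum_le_sum h1
  have h3 : ∑ i ∈ Finset.range n, (R i - K * (R i - A i) - K * Real.log 2) =
      K * (∑ i ∈ Finset.range n, A i) - (K - 1) * (∑ i ∈ Finset.range n, R i) -
        n * (K * Real.log 2) := by
    rw [Finset.sum_sub_distrib, Finset.sum_const, Finset.card_range, nsmul_eq_mul,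
      Finset.mul_sum, Finset.mul_sum, ← Finset.sum_sub_distrib]
    congr 1
    exact Finset.sum_congr rfl fun i _ => by ring
  have h4 : ∑ i ∈ Finset.range n, R i ≤ k * (s * Real.log 2) + n * (k * Real.log 7) := by
    have e1 : ∑ i ∈ Finset.range n, R i = k * (((v n : ℝ) - v 0) * Real.log 2) +
        n * (k * Real.log 7) := by
      rw [hR]
      clear h1 h2 h3 hA hR hvn
      induction n with
      | zero => simp
      | succ n ih =>
        rw [Finset.sum_range_succ, ih]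
        push_cast
        ring
    rw [e1]
    have e2 : ((v n : ℝ) - v 0) * Real.log 2 ≤ s * Real.log 2 := by
      refine mul_le_mul_of_nonneg_right ?_ l2
      have : (v n : ℝ) ≤ s := by exact_mod_cast hvn
      have h0 : (0 : ℝ) ≤ v 0 := Nat.cast_nonneg _
      linarith
    have := mul_le_mul_of_nonneg_left e2 hk
    linarith
  rw [h3] at h2
  refine le_trans ?_ h2
  have h5 := mul_le_mul_of_nonneg_left h4 (show 0 ≤ K - 1 by linarith)
  have h6 : (0 : ℝ) ≤ n * (k * Real.log 7) := by positivity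
  have e3 : (∑ i ∈ Finset.range n, CH p (posv s Y T (v (i + 1)))
      (fun ω => (T ω / 2 ^ (s - v (i + 1)), (posv s Y T (v i) ω, Z ω)))) =
      ∑ i ∈ Finset.range n, A i := by rw [hA]
  rw [e3]
  nlinarith

end

end Pool.HD
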