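import Pool.Agent.H81.HD.Pay

/-!
# LEMMA VIS: what is visible at uniform times is visible at the actual time
-/

set_option autoImplicit false

namespace Pool.HD

open Finset Real Pool.XF Pool.LU
open Pool.Agent.H49.Ent Pool.Agent.H32.Dense Pool.STK Pool.KA Pool.KSAT Pool.K2S Pool.PC

theorem vis0 : ∃ C : ℝ, 0 ≤ C ∧ ∀ {Ω S ζ : Type} [Fintype Ω] {p : Ω → ℝ}, IsLaw p →
    ∀ (B : Ω → ζ) (f : Ω → S) (Y : Ω → Fin 2 → Fin 1 → ℝ) (T : Ω → ℕ) (s : ℕ) (v : ℕ → ℕ) (n : ℕ)
      (q : Ω × Fin (2 ^ s) → ℝ) (K : ℝ), IsLaw q → 1 < K → (∀ u, q u ≤ K * uni s p u) →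
      (∀ ω a j, 0 ≤ Y ω a j ∧ Y ω a j ≤ 1) → (∀ ω, T ω < 2 ^ s) → (∀ i, v i ≤ v (i + 1)) →
      v n ≤ s →
      CH q (fun u => f u.1) (fun u => (T u.1 / 2 ^ (s - v n), (posv s Y T (v n) u.1, B u.1))) ≤
        CH q (fun u => f u.1) (fun u => (uposk s Y u, (u.2, B u.1))) +
        K * (s * Real.log 2 - ∑ i ∈ Finset.range n, CH p (posv s Y T (v (i + 1)))
          (fun ω => (T ω / 2 ^ (s - v (i + 1)), (posv s Y T (v i) ω, B ω)))) +
        C * (K * (n + 1) + Real.log K + Real.log (s + 1)) := by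
  obtain ⟨Cr, hCr, hrc⟩ := rows_cost 1 1 le_rfl
  have l2 : 0 ≤ Real.log 2 := Real.log_nonneg (by norm_num)
  have l7 : 0 ≤ Real.log 7 := Real.log_nonneg (by norm_num)
  have l9 : 0 ≤ Real.log 9 := Real.log_nonneg (by norm_num)
  have l18 : 0 ≤ Real.log 18 := Real.log_nonneg (by norm_num)
  refine ⟨Cr + 3 * Real.log 7 + Real.log 2 + Real.log 18 + Real.log 9 + 3, by positivity, ?_⟩
  intro Ω S ζ _ p hp B f Y T s v n q K hq hK hqp hY hT hv hvn
  have hp0 := hp.nonneg
  have hq0 := hq.nonneg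
  have hr := uni_law hp s
  have hK0 : 0 < K := by linarith only [hK]
  have hY1 : ∀ ω ω' a j, |Y ω a j - Y ω' a j| ≤ 1 := fun ω ω' a j => by
    obtain ⟨g1, g2⟩ := hY ω a j
    obtain ⟨g3, g4⟩ := hY ω' a j
    rw [abs_le]
    constructor <;> linarith
  have vmono : ∀ i j, i ≤ j → v i ≤ v j := fun i j h => monotone_nat_of_le_succ hv h
  obtain ⟨κ, hκ, kf⟩ := kaufq hp (fun ω => (B ω, f ω)) (fun ω ω' a => hY1 ω ω' a 0) s hq hK.le hqp
  -- the label is a function of the smaller one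
  have hlb : CH q (labk (fun u (_ : Fin 1) => κ u.1) (fun _ _ _ => 1) (fun u => Y u.1))
      (fun u => (B u.1, f u.1)) ≤ CH q (fun u => lb0 κ Y u.1) (fun u => (B u.1, f u.1)) :=
    CH_mono_left hq0 fun u u' _ _ hh => by
      have := lb0_labk (Prod.ext_iff.mp hh).1
      exact this
  -- the rows
  have rc := hrc (Ω × Fin (2 ^ s)) (ζ × S) q (fun u => (B u.1, f u.1)) (fun u => Y u.1)
    (fun u => T u.1) (fun u _ => κ u.1) (fun _ _ _ => 1) s v n hq
    (fun u j => by
      obtain ⟨g1, g2⟩ := hY u.1 1 j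
      rw [abs_of_nonneg g1]
      exact g2) (fun u => hT u.1) hv hvn (fun u _ => hκ u.1) (fun _ _ _ => by norm_num)
    (fun _ => ⟨fun _ _ => 1, fun _ _ => by norm_num, fun i l => by
      rw [Subsingleton.elim i l]
      simp⟩)
  have e1 : (∑ u, q u * ∑ _i : Fin 1, ((s : ℝ) - κ u.1)) = Ex q (fun u => (s : ℝ) - κ u.1) := by
    unfold Ex
    refine Finset.sum_congr rfl fun u _ => ?_
    rw [Fin.sum_univ_one]
  rw [e1] at rc
  -- the contexts
  obtain ⟨c, hc⟩ : ∃ c : ℕ → Ω × Fin (2 ^ s) → ℕ × ((Fin 1 → ℤ) × ζ),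
    c = fun i u => (T u.1 / 2 ^ (s - v i), (posv s Y T (v i) u.1, B u.1)) := ⟨_, rfl⟩
  obtain ⟨τ, hτ⟩ : ∃ τ : ℕ → Ω × Fin (2 ^ s) → ℕ, τ = fun i u => T u.1 / 2 ^ (s - v (i + 1)) :=
    ⟨_, rfl⟩
  obtain ⟨P, hP⟩ : ∃ P : ℕ → Ω × Fin (2 ^ s) → Fin 1 → ℤ,
    P = fun i u => posv s Y T (v (i + 1)) u.1 := ⟨_, rfl⟩
  have pay := payK hq0 n (fun u => f u.1) c τ P (e' := Real.log 7) fun i hi => by
    have h2 : v (i + 1) ≤ s := (vmono _ _ hi).trans hvn
    have k1 : CH q (fun u => (P i u, (τ i u, c i u))) (c (i + 1)) ≤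
        CH q (posv s (fun u : Ω × Fin (2 ^ s) => Y u.1) (fun u => T u.1) (v i)) (c (i + 1)) := by
      refine CH_mono_left hq0 fun u u' _ _ hh => ?_
      rw [hc] at hh
      simp only [Prod.mk.injEq] at hh
      obtain ⟨g1, g2, g3, g4⟩ := hh
      rw [hP, hτ, hc]
      simp only [Prod.mk.injEq]
      exact ⟨g3, g2, tm_lo (hv i) h2 g2, g1, g4⟩
    refine k1.trans ?_
    have := CH_bI hq (posv s (fun u : Ω × Fin (2 ^ s) => Y u.1) (fun u => T u.1) (v i)) (c (i + 1))
      (2 + 1) (by norm_num) fun u u' _ _ hh j => by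
        rw [hc] at hh
        simp only [Prod.mk.injEq] at hh
        exact pv_up (hv i) h2 (hY1 u.1 u'.1 1) hh.1 hh.2.1 j
    rw [Fintype.card_fin] at this
    norm_num at this
    exact this
  -- rows, lower bound
  have lo := rows_dens hr hq hK hqp (fun u : Ω × Fin (2 ^ s) => B u.1) (s := s)
    (Y := fun u => Y u.1) (T := fun u => T u.1) (fun u u' j => hY1 u.1 u'.1 1 j) hv hvn
  have e2 : ∀ i, CH (uni s p) (posv s (fun u : Ω × Fin (2 ^ s) => Y u.1) (fun u => T u.1)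
      (v (i + 1))) (fun ω => (T ω.1 / 2 ^ (s - v (i + 1)),
        (posv s (fun u : Ω × Fin (2 ^ s) => Y u.1) (fun u => T u.1) (v i) ω, B ω.1))) =
      CH p (posv s Y T (v (i + 1)))
        (fun ω => (T ω / 2 ^ (s - v (i + 1)), (posv s Y T (v i) ω, B ω))) := fun i =>
    (uni_marg s).CH (posv s Y T (v (i + 1)))
      (fun ω => (T ω / 2 ^ (s - v (i + 1)), (posv s Y T (v i) ω, B ω)))
  rw [Finset.sum_congr rfl fun i _ => e2 i] at lo
  obtain ⟨A, hA⟩ : ∃ A : ℝ, A = ∑ i ∈ Finset.range n, CH p (posv s Y T (v (i + 1)))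
    (fun ω => (T ω / 2 ^ (s - v (i + 1)), (posv s Y T (v i) ω, B ω))) := ⟨_, rfl⟩
  rw [← hA] at lo ⊢
  -- comparison of the rows
  have r1 : ∑ i ∈ Finset.range n, CH q (posv s (fun u : Ω × Fin (2 ^ s) => Y u.1) (fun u => T u.1)
      (v (i + 1))) (fun ω => (T ω.1 / 2 ^ (s - v (i + 1)),
        (posv s (fun u : Ω × Fin (2 ^ s) => Y u.1) (fun u => T u.1) (v i) ω, B ω.1))) ≤
      ∑ i ∈ Finset.range n, CH q (P i) (fun u => (τ i u, c i u)) := by
    refine Finset.sum_le_sum fun i hi => ?_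
    have h2 : v (i + 1) ≤ s := (vmono _ _ (Finset.mem_range.mp hi)).trans hvn
    rw [hP, hτ, hc]
    refine CH_mono_cond hq0 fun u u' _ _ hh => ?_
    simp only [Prod.mk.injEq] at hh ⊢
    exact ⟨hh.1, tm_lo (hv i) h2 hh.1, hh.2.1, hh.2.2⟩
  have r2 : ∑ i ∈ Finset.range n, CH q (P i) (fun u => (f u.1, (τ i u, c i u))) ≤
      ∑ i ∈ Finset.range n, CH q (posv s (fun u : Ω × Fin (2 ^ s) => Y u.1) (fun u => T u.1)
        (v (i + 1))) (fun ω => (T ω.1 / 2 ^ (s - v (i + 1)),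
          (posv s (fun u : Ω × Fin (2 ^ s) => Y u.1) (fun u => T u.1) (v i) ω,
            (B ω.1, f ω.1)))) := by
    refine Finset.sum_le_sum fun i _ => ?_
    rw [hP, hτ, hc]
    refine CH_mono_cond hq0 fun u u' _ _ hh => ?_
    simp only [Prod.mk.injEq] at hh ⊢
    exact ⟨hh.2.1, hh.2.2.2.1, hh.2.2.2.2, hh.1⟩
  -- the position at the uniform time
  have u1 := CH_chain hq0 (uposk s Y) (fun u => f u.1) (fun u => (u.2, B u.1))
  have u2 := CH_chain hq0 (fun u => f u.1) (uposk s Y) (fun u => (u.2, B u.1))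
  have u3 : CH q (fun u => (uposk s Y u, f u.1)) (fun u => (u.2, B u.1)) =
      CH q (fun u => (f u.1, uposk s Y u)) (fun u => (u.2, B u.1)) := by
    refine CH_congr hq0 ?_ ?_ (fun _ _ _ _ h => h) (fun _ _ _ _ h => h) <;>
    · intro ω ω' _ _ h
      simp only [Prod.mk.injEq] at h ⊢
      tauto
  have u4 : CH q (uposk s Y) (fun u => (u.2, (B u.1, f u.1))) ≤
      CH q (uposk s Y) (fun u => (f u.1, (u.2, B u.1))) :=
    CH_mono_cond hq0 fun u u' _ _ hh => by
      simp only [Prod.mk.injEq] at hh ⊢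
      exact ⟨hh.2.2, hh.1, hh.2.1⟩
  have u4' : CH q (uposk s Y) (fun u => (f u.1, (u.2, B u.1))) ≤
      CH q (uposk s Y) (fun u => (u.2, (B u.1, f u.1))) :=
    CH_mono_cond hq0 fun u u' _ _ hh => by
      simp only [Prod.mk.injEq] at hh ⊢
      exact ⟨hh.2.1, hh.2.2, hh.1⟩
  have u5 : CH q (uposk s Y) (fun u => (u.2, B u.1)) ≤ s * Real.log 2 + Real.log 7 := by
    have hP : (1 : ℝ) ≤ 2 ^ s := one_le_pow₀ (by norm_num)
    have := CH_bI hq (uposk s Y) (fun u => (u.2, B u.1)) (2 * 2 ^ s + 1) (by positivity)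
      fun u u' _ _ hh j => by
        have hi := (Prod.ext_iff.mp hh).1
        unfold uposk
        refine floor_close ?_
        dsimp only at hi
        rw [← hi]
        obtain ⟨f1, f2⟩ := fin_frac s u.2
        have e : Y u.1 0 j + ((u.2 : ℕ) : ℝ) / 2 ^ s * Y u.1 1 j -
            (Y u'.1 0 j + ((u.2 : ℕ) : ℝ) / 2 ^ s * Y u'.1 1 j) =
            (Y u.1 0 j - Y u'.1 0 j) + ((u.2 : ℕ) : ℝ) / 2 ^ s * (Y u.1 1 j - Y u'.1 1 j) := by
          ring
        rw [e]
        refine (abs_add_le _ _).trans ?_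
        have g3 : |((u.2 : ℕ) : ℝ) / 2 ^ s * (Y u.1 1 j - Y u'.1 1 j)| ≤ 1 * 1 :=
          abs_mul_le (by rw [abs_of_nonneg f1]; exact f2) (hY1 u.1 u'.1 1 j)
        have g1 := hY1 u.1 u'.1 0 j
        have e2 : (2 : ℝ) * 2 ^ s / 2 ^ s = 2 := by field_simp
        rw [e2]
        linarith only [g3, g1]
    rw [Fintype.card_fin] at this
    have h3 : 2 * (2 * (2 : ℝ) ^ s + 1) + 1 ≤ 2 ^ s * 7 := by linarith only [hP]
    have h4 := Real.log_le_log (by positivity) h3
    rw [Real.log_mul (by positivity) (by norm_num), Real.log_pow] at h4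
    push_cast at this
    linarith only [h4, this]
  -- the time is almost independent
  have t1 := CH_chain hq0 (fun u : Ω × Fin (2 ^ s) => u.2) (fun u => f u.1) (fun u => B u.1)
  have t2 := CH_chain hq0 (fun u => f u.1) (fun u : Ω × Fin (2 ^ s) => u.2) (fun u => B u.1)
  have t3 : CH q (fun u : Ω × Fin (2 ^ s) => (u.2, f u.1)) (fun u => B u.1) =
      CH q (fun u => (f u.1, u.2)) (fun u => B u.1) := by
    refine CH_congr hq0 ?_ ?_ (fun _ _ _ _ h => h) (fun _ _ _ _ h => h) <;>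
    · intro ω ω' _ _ h
      simp only [Prod.mk.injEq] at h ⊢
      tauto
  have t4 : CH q (fun u : Ω × Fin (2 ^ s) => u.2) (fun u => B u.1) ≤ s * Real.log 2 := by
    have h1 := CH_le_card hq0 hq.sum_one (fun u : Ω × Fin (2 ^ s) => u.2) (fun u => B u.1)
      (fun _ => Finset.univ) (fun _ _ => Finset.mem_univ _)
    rw [Finset.card_univ, Fintype.card_fin, Ex_const hq.sum_one] at h1
    push_cast at h1
    rwa [Real.log_pow] at h1
  have t5 : s * Real.log 2 - Real.log K ≤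
      CH q (fun u : Ω × Fin (2 ^ s) => u.2) (fun u => (f u.1, B u.1)) := by
    have h1 := dens_info hq hr hK0 hqp (fun u : Ω × Fin (2 ^ s) => u.2) (fun u => u.1)
    have h2 : Ex q (info (uni s p) (fun u : Ω × Fin (2 ^ s) => u.2) (fun u => u.1)) =
        s * Real.log 2 := by
      have h3 : Ex q (info (uni s p) (fun u : Ω × Fin (2 ^ s) => u.2) (fun u => u.1)) =
          Ex q (fun _ => s * Real.log 2) := by
        unfold Ex
        refine Finset.sum_congr rfl fun u _ => ?_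
        rcases (hq0 u).eq_or_lt with h0 | h0
        · rw [← h0, zero_mul, zero_mul]
        · congr 1
          have hu : 0 < p u.1 := by
            have := h0.trans_le (hqp u)
            exact uni_pos s ((pos_iff_pos_of_mul_pos this).mp hK0)
          have a1 : law (uni s p) (fun u : Ω × Fin (2 ^ s) => (u.2, u.1)) (u.2, u.1) =
              law p (fun ω => ω) u.1 / 2 ^ s := law_uni s (fun ω => ω) u.2 u.1
          have a2 : law (uni s p) (fun u : Ω × Fin (2 ^ s) => u.1) u.1 =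
              law p (fun ω => ω) u.1 := (uni_marg s).law (fun ω => ω) u.1
          have a3 : 0 < law p (fun ω => ω) u.1 := law_pos hp0 (fun ω => ω) hu
          unfold info
          dsimp only
          rw [a1, a2, div_div_cancel_left' a3.ne', Real.log_inv, Real.log_pow]
          ring
      rw [h3, Ex_const hq.sum_one]
    rw [h2] at h1
    refine h1.trans ?_
    exact CH_mono_cond hq0 fun u u' _ _ hh => by rw [hh]
  have f0 : CH q (fun u => f u.1) (c 0) ≤ CH q (fun u => f u.1) (fun u => B u.1) := by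
    rw [hc]
    exact CH_mono_cond hq0 fun u u' _ _ hh => by
      simp only [Prod.mk.injEq] at hh
      exact hh.2.2
  have lK : 0 ≤ Real.log K := Real.log_nonneg hK.le
  have ls : 0 ≤ Real.log ((s : ℝ) + 1) := Real.log_nonneg (by
    have : (0 : ℝ) ≤ s := Nat.cast_nonneg s
    linarith only)
  have n0 : (0 : ℝ) ≤ n := Nat.cast_nonneg n
  have g0 : CH q (fun u => f u.1) (c n) = CH q (fun u => f u.1)
      (fun u => (T u.1 / 2 ^ (s - v n), (posv s Y T (v n) u.1, B u.1))) := by rw [hc]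
  rw [← g0]
  have main : CH q (fun u => f u.1) (c n) ≤
      CH q (fun u => f u.1) (fun u => (uposk s Y u, (u.2, B u.1))) +
        K * (s * Real.log 2 - A) + (n * (K * (Real.log 7 + Real.log 2)) + n * Real.log 7 +
          Cr * n + 3 * Real.log K + Real.log 7 + (Real.log 18 + Real.log 9 +
            2 * Real.log (s + 1))) := by
    push_cast at lo
    linarith only [kf, hlb, rc, pay, r1, r2, u1, u2, u3, u4, u5, t1, t2, t3, t4, t5, f0, lo]
  refine main.trans ?_
  have hKn : (n : ℝ) ≤ K * n := by nlinarith only [hK]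
  have hK1 : (1 : ℝ) ≤ K * (n + 1) := by nlinarith only [hK, hKn]
  have b1 : n * (K * (Real.log 7 + Real.log 2)) ≤ (Real.log 7 + Real.log 2) * (K * (n + 1)) := by
    have : 0 ≤ (Real.log 7 + Real.log 2) * K := by positivity
    linarith only [this]
  have b2 : n * Real.log 7 ≤ Real.log 7 * (K * (n + 1)) := by
    have := mul_le_mul_of_nonneg_left hKn l7
    have h2 : 0 ≤ Real.log 7 * K := by positivity
    linarith only [this, h2]
  have b3 : Cr * n ≤ Cr * (K * (n + 1)) := by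
    have := mul_le_mul_of_nonneg_left hKn hCr
    have h2 : 0 ≤ Cr * K := by positivity
    linarith only [this, h2]
  have b4 : Real.log 7 + (Real.log 18 + Real.log 9) ≤
      (Real.log 7 + (Real.log 18 + Real.log 9)) * (K * (n + 1)) := by
    have := mul_le_mul_of_nonneg_left hK1 (show 0 ≤ Real.log 7 + (Real.log 18 + Real.log 9) by
      positivity)
    linarith only [this]
  obtain ⟨Q, hQ⟩ : ∃ Q : ℝ, Q = K * (n + 1) := ⟨_, rfl⟩
  rw [← hQ] at b1 b2 b3 b4 hK1 ⊢
  have b5 : (Cr + 3 * Real.log 7 + Real.log 2 + Real.log 18 + Real.log 9 + 3) *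
      (Q + Real.log K + Real.log (s + 1)) = (Real.log 7 + Real.log 2) * Q + Real.log 7 * Q +
      Cr * Q + (Real.log 7 + (Real.log 18 + Real.log 9)) * Q + 3 * Q + 3 * Real.log K +
      3 * Real.log (s + 1) + (Cr + 3 * Real.log 7 + Real.log 2 + Real.log 18 + Real.log 9) *
        (Real.log K + Real.log (s + 1)) := by ring
  have b6 : 0 ≤ (Cr + 3 * Real.log 7 + Real.log 2 + Real.log 18 + Real.log 9) *
      (Real.log K + Real.log (s + 1)) := by positivity
  rw [b5]
  linarith only [hK, ls, hKn, b4, b3, b2, b1, hQ, b6]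

end Pool.HD
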